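import Pool.Agent.W495.FM.Soule

/-!
# Beilinson–Soulé vanishing for varieties generated by small abelian varieties

An abelian variety over the field with `p ^ a` elements is modelled by `RedAV` (Honda, Tate): a
finite product of CM types `(E i, Φ i)` with Weil numbers `π i ∈ E i` that satisfy the formula of
Shimura and Taniyama; its cohomology of degree `n` consists of the alternating `n`-forms on the Tate
module `Ω ⊗ H_1`, on which the Frobenius endomorphism acts by `π`.

`IsSmall Y`: the dimension of `Y` is at most four; or `Y` is (over an algebraic closure) isogenous to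
the product of a power of a simple abelian variety of dimension at most five and of a supersingular
abelian variety; or `Y` is a product of abelian varieties of dimension at most three, with a condition
on the Galois closures of their CM fields. The Newton polygon is arbitrary.

`Generated`: the smallest class of schemes of finite type over the finite field that contains these
abelian varieties, the schemes whose motives are direct summands of sums of twists of motives of
members, and that contains all of `Z`, `X`, `X ∖ Z` if it contains two of them.

Let `X` be a member of dimension `d`, and write `H^a(X, ℚ(j)) = H_(2 d - a)(X, ℚ(d - j))` (this is the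
motivic cohomology of `X` if `X` is smooth).

* `H^a(X, ℚ(j)) = 0` for all `j` and all `a < j`; in particular for `a ≤ 0 < j`.
* For every nonempty open subvariety `U` of `X` and `a ≤ 1` one has `H^a(U, ℚ(2)) = 0`.
* For every subfield `F` of the function field of `X` and `a ≤ 0` one has `H^a(F, ℤ(2)) = 0`.
-/

namespace Pool.Agent.Results.MP_e2821c_ag.GeneratedBySmallAbelian

open Pool.Agent.W495.TA Pool.Agent.W495.FM

/-- Motivic cohomology in the degrees `a < j` of `X`, in the degrees `a ≤ 1` and weight two of its
open subvarieties, and in the degrees `a ≤ 0` and weight two (integral) of the subfields of its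
function field. -/
theorem result (p : ℕ) [Fact p.Prime] (ν : PadicAlgCl p ≃+* ℂ) (Ω : Type) [Field Ω]
    [IsAlgClosed Ω] [CharZero Ω] (V : Type) (T : Homology Ω V) (hT : IsHomology T) (X : V)
    (hX : Generated T (IsSmallAbelian p ν T) X) (d : ℤ) (hd : HasDimension T X d) :
    (∀ a j : ℤ, a < j → ∀ x : T.M X (2 * d - a) (d - j), x = 0) ∧
    ∀ G : Opens T, IsOpenIn G X d →
      (∀ (U : G.O) (a : ℤ), a ≤ 1 → ∀ x : T.M (G.X U) (2 * d - a) (d - 2), x = 0) ∧
      ∀ (A : ℤ → Type) [∀ a, AddCommGroup (A a)], IsStalk G d A →
        ∀ a : ℤ, a ≤ 0 → ∀ x : A a, x = 0 := by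
  refine ⟨fun a j h x => below hT (tb_small hT hX) hd (by omega) x, fun G hG => ⟨fun U a ha x =>
    open_zero hT (tb_small hT hX) hd hG U ha x, fun A _ hA a ha x => ?_⟩⟩
  obtain ⟨U, y, hy⟩ := hA.rational a x
  obtain ⟨m, hm, h⟩ := hy (open_zero hT (tb_small hT hX) hd hG U (by omega) y)
  exact hA.torsionfree a ha m x hm h

end Pool.Agent.Results.MP_e2821c_ag.GeneratedBySmallAbelian
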